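import Pool.Agent.CBG.StmtsB

/-!
# Squad CBG, row DEC
-/

set_option autoImplicit false
set_option maxSynthPendingDepth 3

open scoped Manifold ContDiff Topology
open Set Filter MeasureTheory

namespace Pool.Agent.CBG.H60

theorem dec (hV : VfxStmt) (hO : OrtStmt) : DecStmt := by
  intro n E _ _ _ _ Φ hΦ g x u
  obtain ⟨-, -, -, -, hb, hpos⟩ := hV n E Φ hΦ
  obtain ⟨hsym, hadd, hsmul⟩ := hb g x
  have hh_add' : ∀ a b b', hh g Φ a (b + b') x = hh g Φ a b x + hh g Φ a b' x := by
    intro a b b'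
    rw [hsym a (b + b'), hadd, hsym b a, hsym b' a]
  have hh_smul' : ∀ (r : ℝ) a b, hh g Φ a (r • b) x = r * hh g Φ a b x := by
    intro r a b
    rw [hsym a (r • b), hsmul, hsym b a]
  let h : (ℝ × ℝ) →ₗ[ℝ] (ℝ × ℝ) →ₗ[ℝ] ℝ := LinearMap.mk₂ ℝ (fun a b => hh g Φ a b x)
    (fun a a' b => hadd a a' b) (fun r a b => hsmul r a b) (fun a b b' => hh_add' a b b')
    (fun r a b => hh_smul' r a b)
  have hvadd : ∀ a b : ℝ × ℝ, vf (n := n) Φ (a + b) x = vf (n := n) Φ a x + vf (n := n) Φ b x := by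
    intro a b
    unfold vf
    exact map_add _ a b
  have hvsmul : ∀ (r : ℝ) (b : ℝ × ℝ), vf (n := n) Φ (r • b) x = r • vf (n := n) Φ b x := by
    intro r b
    unfold vf
    exact map_smul _ r b
  let φ : (ℝ × ℝ) →ₗ[ℝ] ℝ :=
    { toFun := fun b => g.inner x (vf (n := n) Φ b x) u
      map_add' := by
        intro a b
        rw [hvadd a b]
        have := (g.inner x).map_add (show TangentSpace (𝓡 n) x from vf (n := n) Φ a x)
          (show TangentSpace (𝓡 n) x from vf (n := n) Φ b x)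
        exact (congrArg (fun q : TangentSpace (𝓡 n) x →L[ℝ] ℝ => q u) this)
      map_smul' := by
        intro r b
        rw [hvsmul r b]
        have := (g.inner x).map_smul r (show TangentSpace (𝓡 n) x from vf (n := n) Φ b x)
        exact (congrArg (fun q : TangentSpace (𝓡 n) x →L[ℝ] ℝ => q u) this) }
  obtain ⟨c, hc⟩ := hO.2 h φ (fun a b => hsym a b) (fun a ha => hpos g a x ha)
  refine ⟨c, u - (show TangentSpace (𝓡 n) x from vf (n := n) Φ c x), ?_, ?_⟩
  · intro b _
    have h1 := (g.inner x (show TangentSpace (𝓡 n) x from vf (n := n) Φ b x)).map_sub u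
      (show TangentSpace (𝓡 n) x from vf (n := n) Φ c x)
    refine h1.trans ?_
    have h2 : hh g Φ b c x = g.inner x (vf (n := n) Φ b x) u := hc b
    rw [sub_eq_zero]
    exact h2.symm
  · exact (sub_add_cancel _ _).symm

end Pool.Agent.CBG.H60
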