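import Pool.Agent.CBG.StmtsB

/-!
# Squad CBG, row GLH
-/

set_option autoImplicit false
set_option maxSynthPendingDepth 3

open scoped Manifold ContDiff Topology
open Set Filter MeasureTheory

namespace Pool.Agent.CBG.H60

section

variable {n : ℕ} {E : Type} [TopologicalSpace E] [ChartedSpace (Ed n) E] [IsManifold (𝓡 n) ∞ E]

/-- the inner product at a point as a real bilinear function of tangent vectors -/
noncomputable def ip (g : Met (n := n) E) (p : E) (u v : TangentSpace (𝓡 n) p) : ℝ := g.inner p u v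

theorem ip_add_left (g : Met (n := n) E) (p : E) (u u' v : TangentSpace (𝓡 n) p) :
    ip g p (u + u') v = ip g p u v + ip g p u' v := by
  have := (g.inner p).map_add u u'
  exact congrArg (fun q : TangentSpace (𝓡 n) p →L[ℝ] ℝ => q v) this

theorem ip_add_right (g : Met (n := n) E) (p : E) (u v v' : TangentSpace (𝓡 n) p) :
    ip g p u (v + v') = ip g p u v + ip g p u v' :=
  (g.inner p u).map_add v v'

theorem ip_symm (g : Met (n := n) E) (p : E) (u v : TangentSpace (𝓡 n) p) :
    ip g p u v = ip g p v u := g.symm p u v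

/-- the fundamental vector as a tangent vector -/
noncomputable def tv (Φ : ℝ × ℝ → E → E) (a : ℝ × ℝ) (p : E) : TangentSpace (𝓡 n) p :=
  vf (n := n) Φ a p

/-- the differential of `Φ t` -/
noncomputable def dt (Φ : ℝ × ℝ → E → E) (t : ℝ × ℝ) (p : E) (u : TangentSpace (𝓡 n) p) :
    TangentSpace (𝓡 n) (Φ t p) := mfderiv (𝓡 n) (𝓡 n) (Φ t) p u

theorem dt_add (Φ : ℝ × ℝ → E → E) (t : ℝ × ℝ) (p : E) (u v : TangentSpace (𝓡 n) p) :
    dt Φ t p (u + v) = dt Φ t p u + dt Φ t p v :=
  (mfderiv (𝓡 n) (𝓡 n) (Φ t) p).map_add u v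

theorem hh_ip (g : Met (n := n) E) (Φ : ℝ × ℝ → E → E) (a b : ℝ × ℝ) (p : E) :
    hh g Φ a b p = ip g p (tv Φ a p) (tv Φ b p) := rfl

end

theorem glh (hV : VfxStmt) (hT : ThhStmt) (hM : MnhStmt) (hD : DecStmt) : GlhStmt := by
  intro n E _ _ _ _ _ _ Φ hΦ g hA hB hC
  obtain ⟨-, -, -, h4, h5, h6⟩ := hV n E Φ hΦ
  obtain ⟨x₀, a, ha, hmin⟩ := hM n E Φ hΦ g
  obtain ⟨s, hs⟩ := hB x₀ a ha
  obtain ⟨p, hp⟩ : ∃ p : E, p = Φ s x₀ := ⟨_, rfl⟩
  rw [← hp] at hs
  have hpa : hh g Φ a a p ≤ hh g Φ a a x₀ := by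
    have := (hs 0).1
    rwa [hΦ.zero] at this
  have hnsq : ∀ b, 0 ≤ nsq b := fun b => by unfold nsq; positivity
  have hm2 : ∀ (x : E) (b : ℝ × ℝ), nsq b * hh g Φ a a p ≤ nsq a * hh g Φ b b x := fun x b =>
    (mul_le_mul_of_nonneg_left hpa (hnsq b)).trans (hmin x b)
  by_cases hn : Odd n
  · refine hT n E Φ hΦ g ⊤ a p ?_ Submodule.mem_top ha ?_ (fun x b _ => hm2 x b) ?_
    · rw [finrank_top, Module.finrank_prod, Module.finrank_self]
      obtain ⟨k, hk⟩ := hn
      exact ⟨k + 1, by omega⟩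
    · intro t _ x u hu
      exact hA t x u hu
    · intro t _ u hu
      exact (hs t).2 u hu
  · have hC' := hC.resolve_left hn
    have hdv : ∀ (t c : ℝ × ℝ) (x : E), dt Φ t x (tv Φ c x) = tv Φ c (Φ t x) :=
      fun t c x => h4 t c x
    refine hT n E Φ hΦ g (Submodule.span ℝ {a}) a p ?_ (Submodule.mem_span_singleton_self a) ha
      ?_ (fun x b _ => hm2 x b) ?_
    · rw [finrank_span_singleton ha]
      have := Nat.not_odd_iff_even.1 hn
      exact this.add_one
    · intro t _ x u hu b hb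
      obtain ⟨c, v, hv, huv⟩ := hD n E Φ hΦ g x u
      obtain ⟨d, hd⟩ := hC' t x
      have huv' : u = v + tv Φ c x := huv
      have e1 : hh g Φ b c x = 0 := by
        have e2 : ip g x (tv Φ b x) u = 0 := hu b hb
        have e3 : ip g x (tv Φ b x) v = 0 := hv b Submodule.mem_top
        rw [huv', ip_add_right, e3, zero_add] at e2
        rw [hh_ip]
        exact e2
      have e4 : ip g (Φ t x) (tv Φ b (Φ t x)) (dt Φ t x v) = 0 :=
        hA t x v hv b Submodule.mem_top
      have e5 : ip g (Φ t x) (tv Φ b (Φ t x)) (dt Φ t x u) = 0 := by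
        rw [huv', dt_add, ip_add_right, e4, zero_add, hdv, ← hh_ip, hd, e1, mul_zero]
      exact e5
    · intro t _ u hu
      obtain ⟨c, v, hv, huv⟩ := hD n E Φ hΦ g p u
      obtain ⟨d, hd⟩ := hC' t p
      have huv' : u = v + tv Φ c p := huv
      have hpos : 0 < hh g Φ a a p := h6 g a p ha
      have e1 : hh g Φ a a p ≤ hh g Φ a a (Φ t p) := by
        have := (hs (t + s)).1
        rwa [hΦ.add, ← hp] at this
      have hd1 : 1 ≤ d := by
        rw [hd a a] at e1
        nlinarith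
      have hcc : 0 ≤ hh g Φ c c p := by
        by_cases hc : c = 0
        · have := (h5 g p).2.2 0 a c
          rw [zero_smul, zero_mul] at this
          rw [hc] at this ⊢
          exact this.ge
        · exact (h6 g c p hc).le
      have n1 : ip g p u u = ip g p v v + hh g Φ c c p := by
        have e2 : ip g p (tv Φ c p) v = 0 := hv c Submodule.mem_top
        rw [huv', ip_add_left, ip_add_right, ip_add_right, e2, ip_symm g p v (tv Φ c p), e2, hh_ip]
        ring
      have n2 : ip g (Φ t p) (dt Φ t p u) (dt Φ t p u) =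
          ip g (Φ t p) (dt Φ t p v) (dt Φ t p v) + hh g Φ c c (Φ t p) := by
        have e2 : ip g (Φ t p) (tv Φ c (Φ t p)) (dt Φ t p v) = 0 :=
          hA t p v hv c Submodule.mem_top
        rw [huv', dt_add, hdv, ip_add_left, ip_add_right, ip_add_right, e2,
          ip_symm g (Φ t p) (dt Φ t p v) (tv Φ c (Φ t p)), e2, hh_ip]
        ring
      have n3 : ip g p v v ≤ ip g (Φ t p) (dt Φ t p v) (dt Φ t p v) := (hs t).2 v hv
      have n4 : ip g p u u ≤ ip g (Φ t p) (dt Φ t p u) (dt Φ t p u) := by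
        rw [n1, n2, hd c c]
        nlinarith
      exact n4

end Pool.Agent.CBG.H60
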